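import Mathlib
import Pool.Agent.H656.AmenOrd
import Pool.Agent.H656.AmenExist

set_option autoImplicit false

/-!
# The Fréchet amenability hierarchy collapses

For all countable ordinals `α, β ≥ 1` a countable Borel equivalence relation is `α`-amenable if and only
if it is `β`-amenable.  So there are no countable ordinals `1 ≤ α < β` with a relation which is
`β`-amenable and not `α`-amenable.

Idea of the proof.  A Borel double sequence of probability vectors `g m n x` on the classes can be
diagonalised: take the average over `m ≤ k x n`, where `k x n` tends to infinity slowly enough
and changes by a bounded amount between equivalent points; such `k` is the minimum over all words `w`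
in Borel involutions generating the relation of `S (w x) n + cost w`, with `S` slow and with only
finitely many words of bounded cost.  So `2`-amenability implies amenability, with quantitative control,
which gives all countable ordinals by transfinite induction.

Definitions (`CBER`, `FAmenable`, `IsFrechetFamily`): `Pool.Agent.H656.AmenDefs`.  Families of iterated
Fréchet filters exist for every `p`, see `Pool.Agent.H656.Amen.exists_frechetFamily`.
-/

namespace Pool.Agent.Results.MP_4ec5c8_lc.HierarchyCollapses

open Pool.Agent.H656.Amen

universe u

/-- For every family of iterated Fréchet filters and all countable ordinals `α, β ≥ 1`, every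
`β`-amenable countable Borel equivalence relation is `α`-amenable. -/
theorem result (p : ℕ → ℕ → ℕ) (hp : Function.Bijective (fun q : ℕ × ℕ => p q.1 q.2))
    (Fr : Ordinal.{0} → Filter ℕ) (hFr : IsFrechetFamily p Fr)
    (α β : Ordinal.{0}) (hα : 1 ≤ α) (hα' : α.card ≤ Cardinal.aleph0)
    (hβ : 1 ≤ β) (hβ' : β.card ≤ Cardinal.aleph0)
    (X : Type u) [MeasurableSpace X] [StandardBorelSpace X] (E : X → X → Prop) (hE : CBER E)
    (h : FAmenable E (Fr β)) : FAmenable E (Fr α) := by
  have hp' : ∀ m, Function.Injective (p m) := by
    intro m a b hab
    have := hp.1 (a₁ := (m, a)) (a₂ := (m, b)) hab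
    exact congrArg Prod.snd this
  exact FAmenable.mono (hFr.le_cofinite hp' α hα hα')
    (FAmenable.of_improves hE (hFr.improves E hE β hβ hβ') h)

end Pool.Agent.Results.MP_4ec5c8_lc.HierarchyCollapses
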